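import Mathlib

set_option autoImplicit false

namespace Pool.Agent.H71.SpiralDisk

open Complex Set Metric

noncomputable section

/-- Radius of the spiral at time `t`. -/
def rho (t : ℝ) : ℝ := t / (1 + |t|)

/-- The spiral ray in `ℂ × ℝ`. -/
def u (t : ℝ) : ℂ × ℝ := ((rho t : ℂ) * exp ((t : ℂ) * I), rho t * (1 - rho t))

/-- Closed unit disk in the plane of height `0` together with the spiral ray. -/
def S : Set (ℂ × ℝ) := {p | ‖p.1‖ ≤ 1 ∧ p.2 = 0} ∪ u '' Ici 0

lemma one_add_abs_pos (t : ℝ) : 0 < 1 + |t| := by positivity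

lemma rho_zero : rho 0 = 0 := by simp [rho]

lemma rho_eq {t : ℝ} (ht : 0 ≤ t) : rho t = t / (1 + t) := by
  simp [rho, abs_of_nonneg ht]

lemma rho_nonneg {t : ℝ} (ht : 0 ≤ t) : 0 ≤ rho t := by
  rw [rho_eq ht]; positivity

lemma rho_pos {t : ℝ} (ht : 0 < t) : 0 < rho t := by
  rw [rho_eq ht.le]; positivity

lemma rho_lt_one {t : ℝ} (ht : 0 ≤ t) : rho t < 1 := by
  rw [rho_eq ht, div_lt_one (by positivity)]; linarith

lemma one_sub_rho {t : ℝ} (ht : 0 ≤ t) : 1 - rho t = 1 / (1 + t) := by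
  rw [rho_eq ht]; field_simp; ring

lemma rho_div {t : ℝ} (ht : 0 ≤ t) : rho t / (1 - rho t) = t := by
  rw [one_sub_rho ht, rho_eq ht]
  have : (1 + t) ≠ 0 := by positivity
  field_simp

lemma continuous_rho : Continuous rho := by
  unfold rho
  exact continuous_id.div (by fun_prop) (fun t => (one_add_abs_pos t).ne')

lemma continuous_u : Continuous u := by
  unfold u
  have := continuous_rho
  fun_prop

lemma u_zero : u 0 = (0, 0) := by simp [u, rho_zero]

lemma norm_exp_real_I (t : ℝ) : ‖exp ((t : ℂ) * I)‖ = 1 := Complex.norm_exp_ofReal_mul_I t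

lemma norm_u {t : ℝ} (ht : 0 ≤ t) : ‖(u t).1‖ = rho t := by
  simp [u, abs_of_nonneg (rho_nonneg ht)]

lemma u_snd (t : ℝ) : (u t).2 = rho t * (1 - rho t) := rfl

lemma u_snd_pos {t : ℝ} (ht : 0 < t) : 0 < (u t).2 := by
  rw [u_snd]
  exact mul_pos (rho_pos ht) (by linarith [rho_lt_one ht.le])

lemma u_snd_nonneg {t : ℝ} (ht : 0 ≤ t) : 0 ≤ (u t).2 := by
  rw [u_snd]
  exact mul_nonneg (rho_nonneg ht) (by linarith [rho_lt_one ht])

lemma u_inj {s t : ℝ} (hs : 0 ≤ s) (ht : 0 ≤ t) (h : u s = u t) : s = t := by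
  have h1 : rho s = rho t := by rw [← norm_u hs, ← norm_u ht, h]
  rw [← rho_div hs, ← rho_div ht, h1]

lemma abs_rho_sub {s t : ℝ} (hs : 0 ≤ s) (ht : 0 ≤ t) : |rho s - rho t| ≤ |s - t| := by
  have h : rho s - rho t = (s - t) / ((1 + s) * (1 + t)) := by
    rw [rho_eq hs, rho_eq ht]
    have h1 : (1 + s) ≠ 0 := by positivity
    have h2 : (1 + t) ≠ 0 := by positivity
    field_simp
    ring
  rw [h, abs_div, abs_of_pos (show 0 < (1 + s) * (1 + t) by positivity)]
  apply div_le_self (abs_nonneg _)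
  nlinarith [mul_nonneg hs ht]

lemma norm_exp_sub_le (a b : ℝ) : ‖exp ((a : ℂ) * I) - exp ((b : ℂ) * I)‖ ≤ |a - b| := by
  have h : exp ((a : ℂ) * I) - exp ((b : ℂ) * I)
      = exp ((b : ℂ) * I) * (exp (I * ((a - b : ℝ) : ℂ)) - 1) := by
    rw [mul_sub, ← Complex.exp_add]
    push_cast
    ring_nf
  rw [h, norm_mul, norm_exp_real_I, one_mul]
  simpa using Real.norm_exp_I_mul_ofReal_sub_one_le (x := a - b)

lemma dist_u_le {s t : ℝ} (hs : 0 ≤ s) (ht : 0 ≤ t) : dist (u s) (u t) ≤ 2 * |s - t| := by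
  rw [Prod.dist_eq]
  apply max_le
  · rw [dist_eq_norm]
    have h : (u s).1 - (u t).1 = ((rho s - rho t : ℝ) : ℂ) * exp ((s : ℂ) * I)
        + (rho t : ℂ) * (exp ((s : ℂ) * I) - exp ((t : ℂ) * I)) := by
      simp only [u]; push_cast; ring
    rw [h]
    refine (norm_add_le _ _).trans ?_
    rw [norm_mul, norm_mul, norm_exp_real_I, mul_one, Complex.norm_real, Complex.norm_real,
      Real.norm_eq_abs, Real.norm_eq_abs, abs_of_nonneg (rho_nonneg ht)]
    have h1 := abs_rho_sub hs ht
    have h2 := norm_exp_sub_le s t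
    have h3 := rho_lt_one ht
    have h4 := rho_nonneg ht
    nlinarith [norm_nonneg (exp ((s : ℂ) * I) - exp ((t : ℂ) * I)), abs_nonneg (s - t)]
  · rw [Real.dist_eq, u_snd, u_snd]
    have h : rho s * (1 - rho s) - rho t * (1 - rho t) = (rho s - rho t) * (1 - rho s - rho t) := by
      ring
    rw [h, abs_mul]
    have h1 := abs_rho_sub hs ht
    have h2 : |1 - rho s - rho t| ≤ 1 := by
      rw [abs_le]; constructor <;>
        linarith [rho_lt_one hs, rho_lt_one ht, rho_nonneg hs, rho_nonneg ht]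
    nlinarith [abs_nonneg (rho s - rho t), abs_nonneg (1 - rho s - rho t), abs_nonneg (s - t)]

lemma u_mem {t : ℝ} (ht : 0 ≤ t) : u t ∈ S := Or.inr ⟨t, ht, rfl⟩

lemma disk_mem {z : ℂ} (hz : ‖z‖ ≤ 1) : ((z, 0) : ℂ × ℝ) ∈ S := Or.inl ⟨hz, rfl⟩

/-- A point of `S` either lies in the disk or is a point `u t` with `0 < t`. -/
lemma mem_S_cases {p : ℂ × ℝ} (hp : p ∈ S) :
    (‖p.1‖ ≤ 1 ∧ p.2 = 0) ∨ ∃ t, 0 < t ∧ p = u t := by
  rcases hp with h | ⟨t, ht, rfl⟩
  · exact Or.inl h
  · rcases (show (0:ℝ) ≤ t from ht).eq_or_lt with h | h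
    · left; rw [← h, u_zero]; simp
    · exact Or.inr ⟨t, h, rfl⟩

lemma norm_fst_le {p : ℂ × ℝ} (hp : p ∈ S) : ‖p.1‖ ≤ 1 := by
  rcases mem_S_cases hp with h | ⟨t, ht, rfl⟩
  · exact h.1
  · rw [norm_u ht.le]; exact (rho_lt_one ht.le).le

lemma abs_snd_le {p : ℂ × ℝ} (hp : p ∈ S) : |p.2| ≤ 1 := by
  rcases mem_S_cases hp with h | ⟨t, ht, rfl⟩
  · rw [h.2]; simp
  · rw [abs_of_nonneg (u_snd_nonneg ht.le), u_snd]
    nlinarith [rho_lt_one ht.le, rho_nonneg ht.le]

/-- `S` as an intersection of compact sets. -/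
lemma S_eq : S = ⋂ n : ℕ, ({p : ℂ × ℝ | ‖p.1‖ ≤ 1 ∧ |p.2| ≤ 1 / ((n : ℝ) + 1)} ∪
    u '' Icc 0 (n : ℝ)) := by
  ext p
  simp only [mem_iInter]
  constructor
  · intro hp n
    rcases mem_S_cases hp with h | ⟨t, ht, rfl⟩
    · left
      refine ⟨h.1, ?_⟩
      rw [h.2, abs_zero]
      positivity
    · by_cases htn : t ≤ n
      · exact Or.inr ⟨t, ⟨ht.le, htn⟩, rfl⟩
      · left
        push Not at htn
        refine ⟨norm_fst_le (u_mem ht.le), ?_⟩
        rw [abs_of_nonneg (u_snd_nonneg ht.le), u_snd, one_sub_rho ht.le]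
        have h1 : rho t * (1 / (1 + t)) ≤ 1 * (1 / (1 + t)) :=
          mul_le_mul_of_nonneg_right (rho_lt_one ht.le).le (by positivity)
        refine h1.trans ?_
        rw [one_mul]
        apply one_div_le_one_div_of_le (by positivity)
        linarith
  · intro hp
    by_cases hex : ∃ n : ℕ, p ∈ u '' Icc 0 (n : ℝ)
    · obtain ⟨n, t, ht, rfl⟩ := hex
      exact u_mem ht.1
    · push Not at hex
      left
      have h1 : ∀ n : ℕ, ‖p.1‖ ≤ 1 ∧ |p.2| ≤ 1 / ((n : ℝ) + 1) := by
        intro n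
        rcases hp n with h | h
        · exact h
        · exact absurd h (hex n)
      refine ⟨(h1 0).1, ?_⟩
      have h2 : |p.2| ≤ 0 := by
        apply ge_of_tendsto' tendsto_one_div_add_atTop_nhds_zero_nat
        exact fun n => (h1 n).2
      exact abs_eq_zero.mp (le_antisymm h2 (abs_nonneg _))

lemma isClosed_S : IsClosed S := by
  rw [S_eq]
  apply isClosed_iInter
  intro n
  apply IsClosed.union
  · apply IsClosed.inter
    · exact isClosed_le (f := fun p : ℂ × ℝ => ‖p.1‖) (by fun_prop) continuous_const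
    · exact isClosed_le (f := fun p : ℂ × ℝ => |p.2|) (by fun_prop) continuous_const
  · exact (isCompact_Icc.image continuous_u).isClosed

lemma isCompact_S : IsCompact S := by
  apply Metric.isCompact_of_isClosed_isBounded isClosed_S
  rw [Metric.isBounded_iff_subset_closedBall (0, 0)]
  refine ⟨1, fun p hp => ?_⟩
  rw [mem_closedBall, Prod.dist_eq]
  apply max_le
  · simpa using norm_fst_le hp
  · simpa using abs_snd_le hp

instance : CompactSpace S := isCompact_iff_compactSpace.mp isCompact_S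

lemma isConnected_S : IsConnected S := by
  have h1 : IsConnected {p : ℂ × ℝ | ‖p.1‖ ≤ 1 ∧ p.2 = 0} := by
    have : {p : ℂ × ℝ | ‖p.1‖ ≤ 1 ∧ p.2 = 0} = (fun z : ℂ => ((z, 0) : ℂ × ℝ)) '' closedBall 0 1 := by
      ext ⟨z, r⟩
      simp only [mem_ofPred_eq, mem_image, mem_closedBall, dist_zero_right, Prod.mk.injEq]
      constructor
      · rintro ⟨h, rfl⟩; exact ⟨z, h, rfl, rfl⟩
      · rintro ⟨w, h, rfl, rfl⟩; exact ⟨h, rfl⟩
    rw [this]
    apply IsConnected.image
    · exact (convex_closedBall (0 : ℂ) 1).isConnected ⟨0, by simp⟩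
    · fun_prop
  have h2 : IsConnected (u '' Ici 0) := (isConnected_Ici).image _ continuous_u.continuousOn
  exact IsConnected.union ⟨(0, 0), by simp, ⟨0, by simp, u_zero⟩⟩ h1 h2

instance : ConnectedSpace S := isConnected_iff_connectedSpace.mp isConnected_S

/-! ### Arcs -/

/-- Restriction of an injective path to a parameter interval gives an arc. -/
lemma arc_of_path (v : ℝ → ℂ × ℝ) (a b : ℝ) (hab : a < b) (hv : ContinuousOn v (Icc a b))
    (hinj : InjOn v (Icc a b)) (hS : ∀ t ∈ Icc a b, v t ∈ S) (x y : S) (hx : v a = x)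
    (hy : v b = y) :
    ∃ γ : unitInterval → S, Continuous γ ∧ Function.Injective γ ∧ γ 0 = x ∧ γ 1 = y := by
  have hmem : ∀ t : unitInterval, a + (t : ℝ) * (b - a) ∈ Icc a b := by
    intro t
    have h0 := t.2.1
    have h1 := t.2.2
    constructor <;> nlinarith
  refine ⟨fun t => ⟨v (a + (t : ℝ) * (b - a)), hS _ (hmem t)⟩, ?_, ?_, ?_, ?_⟩
  · apply Continuous.subtype_mk
    exact hv.comp_continuous (by fun_prop) hmem
  · intro s t hst
    have h := hinj (hmem s) (hmem t) (congrArg Subtype.val hst)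
    apply Subtype.ext
    have h2 : (s : ℝ) * (b - a) = t * (b - a) := by linarith
    exact mul_right_cancel₀ (by linarith) h2
  · apply Subtype.ext
    simpa using hx
  · apply Subtype.ext
    simpa using hy

lemma arc_symm {x y : S}
    (h : ∃ γ : unitInterval → S, Continuous γ ∧ Function.Injective γ ∧ γ 0 = x ∧ γ 1 = y) :
    ∃ γ : unitInterval → S, Continuous γ ∧ Function.Injective γ ∧ γ 0 = y ∧ γ 1 = x := by
  obtain ⟨γ, h1, h2, h3, h4⟩ := h
  refine ⟨fun t => γ (unitInterval.symm t), ?_, ?_, ?_, ?_⟩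
  · exact h1.comp unitInterval.continuous_symm
  · intro s t hst
    exact unitInterval.symm_bijective.injective (h2 hst)
  · simpa using h4
  · simpa using h3

/-- Arc between two points of the disk. -/
lemma arc_disk {x y : S} (hx : x.1.2 = 0) (hy : y.1.2 = 0) (hxy : x ≠ y) :
    ∃ γ : unitInterval → S, Continuous γ ∧ Function.Injective γ ∧ γ 0 = x ∧ γ 1 = y := by
  have hne : x.1.1 ≠ y.1.1 := by
    intro h
    exact hxy (Subtype.ext (Prod.ext h (by rw [hx, hy])))
  apply arc_of_path (fun t : ℝ => ((1 - (t : ℂ)) * x.1.1 + t * y.1.1, 0)) 0 1 one_pos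
  · fun_prop
  · intro s _ t _ hst
    have h1 : (1 - (s : ℂ)) * x.1.1 + s * y.1.1 = (1 - (t : ℂ)) * x.1.1 + t * y.1.1 :=
      congrArg Prod.fst hst
    have h2 : ((s : ℂ) - t) * (y.1.1 - x.1.1) = 0 := by linear_combination h1
    rcases mul_eq_zero.mp h2 with h3 | h3
    · exact_mod_cast sub_eq_zero.mp h3
    · exact absurd (sub_eq_zero.mp h3).symm hne
  · intro t ht
    apply disk_mem
    refine (norm_add_le _ _).trans ?_
    rw [norm_mul, norm_mul]
    have e1 : ‖(1 - (t : ℂ))‖ = 1 - t := by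
      have : (1 - (t : ℂ)) = ((1 - t : ℝ) : ℂ) := by push_cast; ring
      rw [this, Complex.norm_real, Real.norm_eq_abs, abs_of_nonneg (by linarith [ht.2])]
    have e2 : ‖(t : ℂ)‖ = t := by
      rw [Complex.norm_real, Real.norm_eq_abs, abs_of_nonneg ht.1]
    rw [e1, e2]
    have h1 := norm_fst_le x.2
    have h2 := norm_fst_le y.2
    have h3 := ht.1
    have h4 := ht.2
    nlinarith
  · apply Prod.ext
    · simp
    · simp [hx]
  · apply Prod.ext
    · simp
    · simp [hy]

/-- Arc between two points of the ray. -/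
lemma arc_ray {x y : S} {s t : ℝ} (hs : 0 ≤ s) (hst : s < t) (hx : x.1 = u s) (hy : y.1 = u t) :
    ∃ γ : unitInterval → S, Continuous γ ∧ Function.Injective γ ∧ γ 0 = x ∧ γ 1 = y := by
  apply arc_of_path u s t hst continuous_u.continuousOn
  · intro a ha b hb hab
    exact u_inj (hs.trans ha.1) (hs.trans hb.1) hab
  · intro a ha
    exact u_mem (hs.trans ha.1)
  · exact hx.symm
  · exact hy.symm

/-- Arc from a nonzero point of the disk to a point of the ray. -/
lemma arc_disk_ray {x y : S} {t : ℝ} (ht : 0 < t) (hx : x.1.2 = 0) (hx0 : x.1.1 ≠ 0)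
    (hy : y.1 = u t) :
    ∃ γ : unitInterval → S, Continuous γ ∧ Function.Injective γ ∧ γ 0 = x ∧ γ 1 = y := by
  classical
  apply arc_of_path (fun s : ℝ => if s ≤ 0 then ((-(s : ℂ)) * x.1.1, 0) else u s) (-1) t
    (by linarith)
  · apply Continuous.continuousOn
    apply Continuous.if_le
    · fun_prop
    · exact continuous_u
    · exact continuous_id
    · exact continuous_const
    · intro s hs
      rw [hs, u_zero]; simp
  · intro a ha b hb hab
    by_cases h1 : a ≤ 0 <;> by_cases h2 : b ≤ 0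
    · simp only [h1, h2, if_true] at hab
      have h3 : -(a : ℂ) * x.1.1 = -(b : ℂ) * x.1.1 := congrArg Prod.fst hab
      have h4 := mul_right_cancel₀ hx0 h3
      exact_mod_cast neg_injective h4
    · simp only [h1, h2, if_true, if_false] at hab
      have h3 := congrArg Prod.snd hab
      simp only at h3
      push Not at h2
      exact absurd h3 (u_snd_pos h2).ne
    · simp only [h1, h2, if_true, if_false] at hab
      have h3 := congrArg Prod.snd hab
      simp only at h3
      push Not at h1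
      exact absurd h3 (u_snd_pos h1).ne'
    · simp only [h1, h2, if_false] at hab
      push Not at h1 h2
      exact u_inj h1.le h2.le hab
  · intro s hs
    by_cases h1 : s ≤ 0
    · simp only [h1, if_true]
      apply disk_mem
      rw [norm_mul, norm_neg, Complex.norm_real, Real.norm_eq_abs]
      have h2 := norm_fst_le x.2
      have h3 : |s| ≤ 1 := by rw [abs_le]; constructor <;> linarith [hs.1]
      nlinarith [norm_nonneg x.1.1, abs_nonneg s]
    · simp only [h1, if_false]
      push Not at h1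
      exact u_mem h1.le
  · apply Prod.ext
    · simp
    · simp [hx]
  · simp [ht, hy]

theorem arcwise_connected (x y : S) (hxy : x ≠ y) :
    ∃ γ : unitInterval → S, Continuous γ ∧ Function.Injective γ ∧ γ 0 = x ∧ γ 1 = y := by
  rcases mem_S_cases x.2 with hx | ⟨s, hs, hx⟩ <;> rcases mem_S_cases y.2 with hy | ⟨t, ht, hy⟩
  · exact arc_disk hx.2 hy.2 hxy
  · by_cases h0 : x.1.1 = 0
    · apply arc_ray (s := 0) le_rfl ht _ hy
      rw [u_zero]; exact Prod.ext h0 hx.2
    · exact arc_disk_ray ht hx.2 h0 hy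
  · apply arc_symm
    by_cases h0 : y.1.1 = 0
    · apply arc_ray (s := 0) le_rfl hs _ hx
      rw [u_zero]; exact Prod.ext h0 hy.2
    · exact arc_disk_ray hs hy.2 h0 hx
  · rcases lt_trichotomy s t with h | h | h
    · exact arc_ray hs.le h hx hy
    · exact absurd (Subtype.ext (by rw [hx, hy, h])) hxy
    · exact arc_symm (arc_ray ht.le h hy hx)

/-! ### A free arc -/

theorem free_arc : ∃ γ : unitInterval → S, Continuous γ ∧ Function.Injective γ ∧
    IsOpen (γ '' {t : unitInterval | (0 : unitInterval) < t ∧ t < 1}) := by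
  have hmem : ∀ t : unitInterval, (0:ℝ) ≤ 1 + t := fun t => by linarith [t.2.1]
  refine ⟨fun t => ⟨u (1 + t), u_mem (hmem t)⟩, ?_, ?_, ?_⟩
  · apply Continuous.subtype_mk
    exact continuous_u.comp (by fun_prop)
  · intro s t hst
    have h := u_inj (hmem s) (hmem t) (congrArg Subtype.val hst)
    apply Subtype.ext
    linarith
  · have : ((fun t : unitInterval => (⟨u (1 + t), u_mem (hmem t)⟩ : S)) ''
        {t : unitInterval | (0 : unitInterval) < t ∧ t < 1}) =
        {p : S | 0 < p.1.2 ∧ rho 1 < ‖p.1.1‖ ∧ ‖p.1.1‖ < rho 2} := by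
      have hmono : ∀ {a b : ℝ}, 0 ≤ a → 0 ≤ b → (rho a < rho b ↔ a < b) := by
        intro a b ha hb
        rw [rho_eq ha, rho_eq hb, div_lt_div_iff₀ (by positivity) (by positivity)]
        constructor <;> intro h <;> nlinarith
      ext p
      simp only [mem_image, mem_ofPred_eq]
      constructor
      · rintro ⟨t, ⟨h0, h1⟩, rfl⟩
        have h0' : (0:ℝ) < t := h0
        have h1' : (t:ℝ) < 1 := h1
        refine ⟨u_snd_pos (by linarith), ?_, ?_⟩
        · rw [norm_u (hmem t), hmono (by norm_num) (hmem t)]; linarith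
        · rw [norm_u (hmem t), hmono (hmem t) (by norm_num)]; linarith
      · rintro ⟨h0, h1, h2⟩
        rcases mem_S_cases p.2 with hp | ⟨t, ht, hp⟩
        · exact absurd hp.2 h0.ne'
        · rw [hp, norm_u ht.le, hmono (by norm_num) ht.le] at h1
          rw [hp, norm_u ht.le, hmono ht.le (by norm_num)] at h2
          refine ⟨⟨t - 1, by linarith, by linarith⟩, ⟨?_, ?_⟩, ?_⟩
          · exact Subtype.mk_lt_mk.mpr (by linarith)
          · exact Subtype.mk_lt_mk.mpr (by linarith)
          · apply Subtype.ext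
            simp [hp]
    rw [this]
    apply IsOpen.inter
    · exact isOpen_lt (f := fun _ : S => (0:ℝ)) (g := fun p : S => p.1.2) (by fun_prop)
        (by fun_prop)
    · apply IsOpen.inter
      · exact isOpen_lt (f := fun _ : S => rho 1) (g := fun p : S => ‖p.1.1‖) (by fun_prop)
          (by fun_prop)
      · exact isOpen_lt (g := fun _ : S => rho 2) (f := fun p : S => ‖p.1.1‖) (by fun_prop)
          (by fun_prop)

end

end Pool.Agent.H71.SpiralDisk
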