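import Mathlib
import Pool.Agent.H71.SpiralDisk

set_option autoImplicit false

namespace Pool.Agent.H71.SpiralDisk

open Complex Set Metric

noncomputable section

/-- The centre of the disk. -/
def o : S := ⟨(0, 0), disk_mem (by simp)⟩

/-- Rotation angle. -/
def dd (A : Set S) (p : S) : ℝ := infDist p A / 4

/-- Distance of the centre to `A`. -/
def mm (A : Set S) : ℝ := infDist o A

/-- Radial profile. -/
def lam (m r : ℝ) : ℝ := max 0 (min r (2 * r - m))

/-- Radial map. -/
def radial (m : ℝ) (z : ℂ) : ℂ := ((lam m ‖z‖ / ‖z‖ : ℝ) : ℂ) * z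

lemma lam_nonneg (m r : ℝ) : 0 ≤ lam m r := le_max_left _ _

lemma lam_zero {m : ℝ} (hm : 0 ≤ m) : lam m 0 = 0 := by
  unfold lam
  apply max_eq_left
  exact (min_le_right _ _).trans (by linarith)

lemma lam_le {m r : ℝ} (hr : 0 ≤ r) : lam m r ≤ r := max_le hr (min_le_left _ _)

lemma lam_of_le {m r : ℝ} (h : r ≤ m / 2) : lam m r = 0 := by
  unfold lam
  apply max_eq_left
  exact (min_le_right _ _).trans (by linarith)

lemma lam_of_ge {m r : ℝ} (hm : 0 ≤ m) (h : m ≤ r) : lam m r = r := by
  unfold lam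
  rw [min_eq_left (by linarith), max_eq_right (by linarith)]

lemma lam_pos {m r : ℝ} (hm : 0 ≤ m) (h : m / 2 < r) : 0 < lam m r := by
  unfold lam
  apply lt_max_of_lt_right
  apply lt_min <;> linarith

lemma lam_inj {m r s : ℝ} (hm : 0 ≤ m) (hr : m / 2 < r) (hs : m / 2 < s) (h : lam m r = lam m s) :
    r = s := by
  unfold lam at h
  rw [max_eq_right (le_min (by linarith) (by linarith)),
    max_eq_right (le_min (by linarith) (by linarith))] at h
  rcases min_cases r (2 * r - m) with ⟨h1, h1'⟩ | ⟨h1, h1'⟩ <;>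
  rcases min_cases s (2 * s - m) with ⟨h2, h2'⟩ | ⟨h2, h2'⟩ <;>
  rw [h1, h2] at h <;> linarith

lemma continuous_lam (m : ℝ) : Continuous (lam m) := by unfold lam; fun_prop

lemma norm_radial {m : ℝ} (hm : 0 ≤ m) (z : ℂ) : ‖radial m z‖ = lam m ‖z‖ := by
  unfold radial
  rw [norm_mul, Complex.norm_real, Real.norm_eq_abs, abs_of_nonneg
    (div_nonneg (lam_nonneg _ _) (norm_nonneg _))]
  by_cases hz : z = 0
  · simp [hz, lam_zero hm]
  · have : ‖z‖ ≠ 0 := norm_ne_zero_iff.mpr hz
    field_simp

lemma continuous_radial {m : ℝ} (hm : 0 ≤ m) : Continuous (radial m) := by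
  rw [continuous_iff_continuousAt]
  intro z
  by_cases hz : z = 0
  · subst hz
    have h0 : radial m 0 = 0 := by simp [radial]
    unfold ContinuousAt
    rw [h0, tendsto_zero_iff_norm_tendsto_zero]
    have h1 : (fun z => ‖radial m z‖) = fun z => lam m ‖z‖ := funext (norm_radial hm)
    rw [h1]
    have h2 : Filter.Tendsto (fun z : ℂ => lam m ‖z‖) (nhds 0) (nhds (lam m ‖(0:ℂ)‖)) :=
      ((continuous_lam m).comp continuous_norm).tendsto 0
    rwa [norm_zero, lam_zero hm] at h2
  · unfold radial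
    have : ‖z‖ ≠ 0 := norm_ne_zero_iff.mpr hz
    have h1 : ContinuousAt (fun z : ℂ => lam m ‖z‖ / ‖z‖) z :=
      ContinuousAt.div ((continuous_lam m).comp continuous_norm).continuousAt
        continuous_norm.continuousAt this
    exact (Complex.continuous_ofReal.continuousAt.comp h1).mul continuousAt_id

lemma radial_of_le {m : ℝ} {z : ℂ} (h : ‖z‖ ≤ m / 2) : radial m z = 0 := by
  simp [radial, lam_of_le h]

lemma radial_of_ge {m : ℝ} {z : ℂ} (hm : 0 ≤ m) (h : m ≤ ‖z‖) : radial m z = z := by
  unfold radial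
  rw [lam_of_ge hm h]
  by_cases hz : z = 0
  · simp [hz]
  · have : ‖z‖ ≠ 0 := norm_ne_zero_iff.mpr hz
    rw [div_self this]; simp

section

variable (A : Set S)

lemma dd_nonneg (p : S) : 0 ≤ dd A p := by unfold dd; have := infDist_nonneg (x := p) (s := A); positivity

lemma mm_nonneg : 0 ≤ mm A := infDist_nonneg

lemma dd_o : dd A o = mm A / 4 := rfl

lemma dist_le_two (p q : S) : dist p q ≤ 2 := by
  rw [Subtype.dist_eq, Prod.dist_eq]
  apply max_le
  · rw [dist_eq_norm]
    refine (norm_sub_le _ _).trans ?_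
    linarith [norm_fst_le p.2, norm_fst_le q.2]
  · rw [Real.dist_eq]
    refine (abs_sub _ _).trans ?_
    linarith [abs_snd_le p.2, abs_snd_le q.2]

variable {A}

lemma dd_le (hne : A.Nonempty) (p : S) : dd A p ≤ 1 / 2 := by
  obtain ⟨a, ha⟩ := hne
  have h1 := (infDist_le_dist_of_mem (x := p) ha).trans (dist_le_two p a)
  unfold dd
  linarith

lemma mm_le_one (hne : A.Nonempty) : mm A ≤ 1 := by
  obtain ⟨a, ha⟩ := hne
  refine (infDist_le_dist_of_mem (x := o) ha).trans ?_
  rw [Subtype.dist_eq, Prod.dist_eq]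
  apply max_le
  · simpa [o] using norm_fst_le a.2
  · simpa [o] using abs_snd_le a.2

lemma dd_eq_zero (hA : IsClosed A) (hne : A.Nonempty) (p : S) : dd A p = 0 ↔ p ∈ A := by
  rw [hA.mem_iff_infDist_zero hne]
  unfold dd
  constructor <;> intro h <;> linarith

lemma dd_lip (p q : S) : |dd A p - dd A q| ≤ dist p q / 4 := by
  have h1 := infDist_le_infDist_add_dist (x := p) (y := q) (s := A)
  have h2 := infDist_le_infDist_add_dist (x := q) (y := p) (s := A)
  rw [dist_comm] at h2
  unfold dd
  rw [abs_le]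
  constructor <;> linarith

lemma continuous_dd : Continuous (dd A) := by
  unfold dd
  exact (continuous_infDist_pt A).div_const 4

lemma mm_le_norm {p : S} (hp : p ∈ A) (h0 : p.1.2 = 0) : mm A ≤ ‖p.1.1‖ := by
  refine (infDist_le_dist_of_mem (x := o) hp).trans ?_
  rw [Subtype.dist_eq, Prod.dist_eq]
  apply max_le
  · simp [o]
  · simp [o, h0]

end

/-- Map on the disk part. -/
def F (A : Set S) (p : S) : ℂ × ℝ :=
  (radial (mm A) p.1.1 * exp ((dd A p : ℂ) * I), 0) + u (max 0 (mm A - 2 * ‖p.1.1‖) / 4)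

/-- Parameter function. -/
def T (p : ℂ × ℝ) : ℝ := ‖p.1‖ / (1 - ‖p.1‖)

lemma T_u {t : ℝ} (ht : 0 ≤ t) : T (u t) = t := by
  unfold T; rw [norm_u ht, rho_div ht]

lemma T_nonneg {p : ℂ × ℝ} (hp : p ∈ S) : 0 ≤ T p := by
  unfold T
  exact div_nonneg (norm_nonneg _) (by linarith [norm_fst_le hp])

/-- The underlying function of the map. -/
def fval (A : Set S) (p : S) : ℂ × ℝ :=
  open Classical in if p.1.2 = 0 then F A p else u (T p.1 + dd A p)

lemma continuous_F (A : Set S) : Continuous (F A) := by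
  unfold F
  have h1 : Continuous fun p : S => radial (mm A) p.1.1 :=
    (continuous_radial (mm_nonneg A)).comp (by fun_prop)
  have h2 : Continuous fun p : S => exp ((dd A p : ℂ) * I) := by
    have := continuous_dd (A := A)
    fun_prop
  have h3 : Continuous fun p : S => u (max 0 (mm A - 2 * ‖p.1.1‖) / 4) :=
    continuous_u.comp (by fun_prop)
  exact ((h1.mul h2).prodMk continuous_const).add h3

lemma F_of_le {A : Set S} {p : S} (h : ‖p.1.1‖ ≤ mm A / 2) :
    F A p = u ((mm A - 2 * ‖p.1.1‖) / 4) := by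
  unfold F
  rw [radial_of_le h, max_eq_right (by linarith)]
  simp

lemma F_of_ge {A : Set S} {p : S} (h : mm A / 2 ≤ ‖p.1.1‖) :
    F A p = (radial (mm A) p.1.1 * exp ((dd A p : ℂ) * I), 0) := by
  unfold F
  rw [max_eq_left (by linarith), zero_div, u_zero]
  simp

lemma F_mem (A : Set S) (p : S) : F A p ∈ S := by
  rcases le_total ‖p.1.1‖ (mm A / 2) with h | h
  · rw [F_of_le h]
    exact u_mem (by linarith)
  · rw [F_of_ge h]
    apply disk_mem
    rw [norm_mul, norm_exp_real_I, mul_one, norm_radial (mm_nonneg A)]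
    exact (lam_le (norm_nonneg _)).trans (norm_fst_le p.2)

lemma fval_mem (A : Set S) (p : S) : fval A p ∈ S := by
  unfold fval
  split_ifs with h
  · exact F_mem A p
  · exact u_mem (add_nonneg (T_nonneg p.2) (dd_nonneg A p))

/-- The monotone map with fixed point set `A`. -/
def f (A : Set S) (p : S) : S := ⟨fval A p, fval_mem A p⟩

lemma f_disk {A : Set S} {p : S} (h : p.1.2 = 0) : (f A p).1 = F A p := by
  simp [f, fval, h]

lemma f_ray {A : Set S} {p : S} {t : ℝ} (ht : 0 ≤ t) (h : p.1 = u t) :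
    (f A p).1 = u (t + dd A p) := by
  by_cases h0 : p.1.2 = 0
  · rcases ht.eq_or_lt with h1 | h1
    · have hp : p = o := Subtype.ext (by rw [h, ← h1, u_zero]; rfl)
      subst hp
      rw [f_disk h0, F_of_le, ← h1, zero_add, dd_o]
      · simp [o]
      · simp only [o, norm_zero]; linarith [mm_nonneg A]
    · rw [h] at h0
      exact absurd h0 (u_snd_pos h1).ne'
  · have : (f A p).1 = u (T p.1 + dd A p) := by simp [f, fval, h0]
    rw [this, h, T_u ht]

/-- Radius after a shift of the parameter by `d`. -/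
def sig (r d : ℝ) : ℝ := (r + d * (1 - r)) / (1 + d * (1 - r))

lemma sig_eq {t d : ℝ} (ht : 0 ≤ t) (hd : 0 ≤ d) : sig (rho t) d = rho (t + d) := by
  unfold sig
  rw [one_sub_rho ht, rho_eq ht, rho_eq (add_nonneg ht hd)]
  have : 1 + t ≠ 0 := by positivity
  have : 1 + (t + d) ≠ 0 := by positivity
  have : 1 + d * (1 / (1 + t)) ≠ 0 := by positivity
  field_simp
  ring_nf

/-- Formula near the boundary circle. -/
def H (A : Set S) (p : S) : ℂ × ℝ :=
  (((sig ‖p.1.1‖ (dd A p) / ‖p.1.1‖ : ℝ) : ℂ) * p.1.1 * exp ((dd A p : ℂ) * I),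
    sig ‖p.1.1‖ (dd A p) * (1 - sig ‖p.1.1‖ (dd A p)))

lemma one_add_pos (A : Set S) (p : S) : 0 < 1 + dd A p * (1 - ‖p.1.1‖) := by
  have := mul_nonneg (dd_nonneg A p) (sub_nonneg.mpr (norm_fst_le p.2))
  linarith

lemma continuousAt_H (A : Set S) {p : S} (hp : p.1.1 ≠ 0) : ContinuousAt (H A) p := by
  have hd := (continuous_dd (A := A))
  have h1 : Continuous fun p : S => sig ‖p.1.1‖ (dd A p) := by
    unfold sig
    apply Continuous.div
    · fun_prop
    · fun_prop
    · intro p; exact (one_add_pos A p).ne'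
  unfold H
  apply ContinuousAt.prodMk
  · apply ContinuousAt.mul
    · apply ContinuousAt.mul
      · apply Complex.continuous_ofReal.continuousAt.comp
        apply ContinuousAt.div h1.continuousAt (by fun_prop)
        exact norm_ne_zero_iff.mpr hp
      · fun_prop
    · fun_prop
  · fun_prop

lemma f_eq_H_ray {A : Set S} {p : S} {t : ℝ} (ht : 0 < t) (h : p.1 = u t) :
    (f A p).1 = H A p := by
  rw [f_ray ht.le h]
  unfold H
  have hn : ‖p.1.1‖ = rho t := by rw [h, norm_u ht.le]
  rw [hn, sig_eq ht.le (dd_nonneg A p)]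
  apply Prod.ext
  · simp only
    have h1 : p.1.1 = (rho t : ℂ) * exp ((t : ℂ) * I) := by rw [h]; rfl
    rw [h1]
    have h2 : (rho t : ℂ) ≠ 0 := by exact_mod_cast (rho_pos ht).ne'
    have h3 : exp (((t + dd A p : ℝ) : ℂ) * I) = exp ((t : ℂ) * I) * exp ((dd A p : ℂ) * I) := by
      rw [← Complex.exp_add]; push_cast; ring_nf
    simp only [u]
    rw [h3]
    push_cast
    field_simp
  · rfl

lemma f_eq_H_circle {A : Set S} (hne : A.Nonempty) {p : S} (h0 : p.1.2 = 0) (h : ‖p.1.1‖ = 1) :
    (f A p).1 = H A p := by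
  have hm := mm_le_one hne
  have hm0 := mm_nonneg A
  rw [f_disk h0, F_of_ge (by rw [h]; linarith), radial_of_ge hm0 (by rw [h]; exact hm)]
  unfold H
  rw [h]
  simp [sig]

/-- The closure of the ray. -/
def R : Set S := {p : S | p.1.2 = ‖p.1.1‖ * (1 - ‖p.1.1‖)}

lemma isClosed_R : IsClosed R := isClosed_eq (by fun_prop) (by fun_prop)

lemma isClosed_D : IsClosed {p : S | p.1.2 = 0} := isClosed_eq (by fun_prop) (by fun_prop)

lemma R_cases {p : S} (hp : p ∈ R) : (p.1.2 = 0 ∧ ‖p.1.1‖ = 1) ∨ ∃ t, 0 ≤ t ∧ p.1 = u t := by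
  rcases mem_S_cases p.2 with h | ⟨t, ht, h⟩
  · have h1 : p.1.2 = ‖p.1.1‖ * (1 - ‖p.1.1‖) := hp
    rw [h.2] at h1
    rcases mul_eq_zero.mp h1.symm with h2 | h2
    · right
      refine ⟨0, le_rfl, ?_⟩
      rw [u_zero]
      exact Prod.ext (norm_eq_zero.mp h2) h.2
    · left
      exact ⟨h.2, by linarith⟩
  · exact Or.inr ⟨t, ht.le, h⟩

lemma continuousOn_f_R {A : Set S} (hne : A.Nonempty) : ContinuousOn (fun p => (f A p).1) R := by
  intro p hp
  have hd := (continuous_dd (A := A))
  by_cases hlt : ‖p.1.1‖ < 1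
  · -- on the ray
    have h1 : ContinuousWithinAt (fun p : S => u (T p.1 + dd A p)) R p := by
      apply ContinuousAt.continuousWithinAt
      apply continuous_u.continuousAt.comp
      apply ContinuousAt.add _ hd.continuousAt
      unfold T
      apply ContinuousAt.div (by fun_prop) (by fun_prop)
      linarith
    apply h1.congr_of_eventuallyEq
    · have h2 : {q : S | ‖q.1.1‖ < 1} ∈ nhdsWithin p R :=
        mem_nhdsWithin_of_mem_nhds ((isOpen_lt (f := fun q : S => ‖q.1.1‖) (g := fun _ => (1:ℝ))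
          (by fun_prop) (by fun_prop)).mem_nhds hlt)
      filter_upwards [h2, self_mem_nhdsWithin] with q hq hqR
      rcases R_cases hqR with h | ⟨t, ht, h⟩
      · exact absurd h.2 (ne_of_lt hq)
      · rw [f_ray ht h, h, T_u ht]
    · rcases R_cases hp with h | ⟨t, ht, h⟩
      · exact absurd h.2 (ne_of_lt hlt)
      · rw [f_ray ht h, h, T_u ht]
  · have hone : ‖p.1.1‖ = 1 := le_antisymm (norm_fst_le p.2) (not_lt.mp hlt)
    have hne0 : p.1.1 ≠ 0 := by
      intro h; rw [h, norm_zero] at hone; exact zero_ne_one hone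
    apply (continuousAt_H A hne0).continuousWithinAt.congr_of_eventuallyEq
    · have h2 : {q : S | 0 < ‖q.1.1‖} ∈ nhdsWithin p R :=
        mem_nhdsWithin_of_mem_nhds ((isOpen_lt (g := fun q : S => ‖q.1.1‖) (f := fun _ => (0:ℝ))
          (by fun_prop) (by fun_prop)).mem_nhds (by simp only [mem_ofPred_eq]; linarith))
      filter_upwards [h2, self_mem_nhdsWithin] with q hq hqR
      rcases R_cases hqR with h | ⟨t, ht, h⟩
      · exact f_eq_H_circle hne h.1 h.2
      · rcases ht.eq_or_lt with h1 | h1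
        · rw [← h1, u_zero] at h
          simp [h] at hq
        · exact f_eq_H_ray h1 h
    · rcases R_cases hp with h | ⟨t, ht, h⟩
      · exact f_eq_H_circle hne h.1 h.2
      · rw [h, norm_u ht] at hone
        exact absurd hone (rho_lt_one ht).ne

lemma D_union_R : {p : S | p.1.2 = 0} ∪ R = univ := by
  apply eq_univ_of_forall
  intro p
  rcases mem_S_cases p.2 with h | ⟨t, ht, h⟩
  · exact Or.inl h.2
  · right
    show p.1.2 = ‖p.1.1‖ * (1 - ‖p.1.1‖)
    rw [h, norm_u ht.le]; rfl

theorem continuous_f {A : Set S} (hne : A.Nonempty) : Continuous (f A) := by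
  rw [continuous_induced_rng, ← continuousOn_univ, ← D_union_R]
  apply ContinuousOn.union_of_isClosed
  · apply (continuous_F A).continuousOn.congr
    intro p hp
    exact f_disk hp
  · exact continuousOn_f_R hne
  · exact isClosed_D
  · exact isClosed_R

/-! ### Fibres -/

/-- Points of the ray as elements of the space. -/
def uS (t : ℝ) : S := ⟨u |t|, u_mem (abs_nonneg t)⟩

lemma uS_val {t : ℝ} (ht : 0 ≤ t) : (uS t).1 = u t := by simp [uS, abs_of_nonneg ht]

lemma continuous_uS : Continuous uS := by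
  unfold uS
  exact Continuous.subtype_mk (continuous_u.comp continuous_abs) _

/-- Parameter map on the ray. -/
def phi (A : Set S) (t : ℝ) : ℝ := t + dd A (uS t)

lemma continuous_phi (A : Set S) : Continuous (phi A) :=
  continuous_id.add ((continuous_dd).comp continuous_uS)

lemma phi_strict (A : Set S) {s t : ℝ} (hs : 0 ≤ s) (hst : s < t) : phi A s < phi A t := by
  have h1 := dd_lip (A := A) (uS s) (uS t)
  have h2 : dist (uS s) (uS t) ≤ 2 * |s - t| := by
    rw [Subtype.dist_eq, uS_val hs, uS_val (hs.trans hst.le)]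
    exact dist_u_le hs (hs.trans hst.le)
  have h3 : |s - t| = t - s := by rw [abs_sub_comm, abs_of_pos (by linarith)]
  rw [h3] at h2
  have h4 := (abs_le.mp h1).2
  unfold phi
  linarith

lemma phi_zero (A : Set S) : phi A 0 = mm A / 4 := by
  have : uS 0 = o := by
    apply Subtype.ext
    rw [uS_val le_rfl, u_zero]; rfl
  rw [phi, this, dd_o, zero_add]

lemma f_uS {A : Set S} {t : ℝ} (ht : 0 ≤ t) : (f A (uS t)).1 = u (phi A t) := by
  rw [f_ray ht (uS_val ht)]; rfl

lemma phi_nonneg (A : Set S) {t : ℝ} (ht : 0 ≤ t) : 0 ≤ phi A t :=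
  add_nonneg ht (dd_nonneg _ _)

/-- Every point is either `uS t` with `0 < t` or in the disk. -/
lemma cases_S (p : S) : p.1.2 = 0 ∨ ∃ t, 0 < t ∧ p = uS t := by
  rcases mem_S_cases p.2 with h | ⟨t, ht, h⟩
  · exact Or.inl h.2
  · exact Or.inr ⟨t, ht, Subtype.ext (by rw [h, uS_val ht.le])⟩

/-- Circle fibres. -/
lemma isConnected_circle {r : ℝ} (hr0 : 0 ≤ r) (hr1 : r ≤ 1) :
    IsConnected {p : S | p.1.2 = 0 ∧ ‖p.1.1‖ = r} := by
  have hmem : ∀ θ : ℝ, (((r : ℂ) * exp ((θ : ℂ) * I), 0) : ℂ × ℝ) ∈ S := by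
    intro θ
    apply disk_mem
    rw [norm_mul, norm_exp_real_I, Complex.norm_real, Real.norm_eq_abs, abs_of_nonneg hr0]
    linarith
  have h : {p : S | p.1.2 = 0 ∧ ‖p.1.1‖ = r} =
      (fun θ : ℝ => (⟨((r : ℂ) * exp ((θ : ℂ) * I), 0), hmem θ⟩ : S)) '' univ := by
    ext p
    simp only [mem_ofPred_eq, image_univ, mem_range]
    constructor
    · rintro ⟨h1, h2⟩
      refine ⟨arg p.1.1, ?_⟩
      apply Subtype.ext
      apply Prod.ext
      · simp only
        rw [← h2]
        exact Complex.norm_mul_exp_arg_mul_I p.1.1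
      · exact h1.symm
    · rintro ⟨θ, rfl⟩
      refine ⟨rfl, ?_⟩
      simp [abs_of_nonneg hr0]
  rw [h]
  apply isConnected_univ.image
  apply Continuous.continuousOn
  apply Continuous.subtype_mk
  fun_prop

lemma fiber_ray_high {A : Set S} {s : ℝ} (hs : mm A / 4 < s) (y : S) (hy : y.1 = u s) :
    IsConnected (f A ⁻¹' {y}) := by
  have hm := mm_nonneg A
  have hs0 : 0 < s := by linarith
  -- existence of the parameter
  have hex : ∃ t, 0 < t ∧ phi A t = s := by
    have h1 : phi A 0 ≤ s := by rw [phi_zero]; exact hs.le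
    have h2 : s ≤ phi A s := by unfold phi; linarith [dd_nonneg A (uS s)]
    obtain ⟨t, ht, hts⟩ := intermediate_value_Icc hs0.le (continuous_phi A).continuousOn ⟨h1, h2⟩
    refine ⟨t, lt_of_le_of_ne ht.1 ?_, hts⟩
    rintro rfl
    rw [phi_zero] at hts
    linarith
  obtain ⟨t, ht, hts⟩ := hex
  have : f A ⁻¹' {y} = {uS t} := by
    ext p
    simp only [mem_preimage, mem_singleton_iff]
    constructor
    · intro hp
      have hp1 : (f A p).1 = u s := by rw [hp, hy]
      rcases cases_S p with h | ⟨t', ht', rfl⟩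
      · rw [f_disk h] at hp1
        rcases le_total ‖p.1.1‖ (mm A / 2) with h1 | h1
        · rw [F_of_le h1] at hp1
          have h2 := u_inj (by linarith) hs0.le hp1
          have h3 := norm_nonneg p.1.1
          linarith
        · rw [F_of_ge h1] at hp1
          have h2 := congrArg Prod.snd hp1
          exact absurd h2 (u_snd_pos hs0).ne
      · rw [f_uS ht'.le] at hp1
        have h2 := u_inj (phi_nonneg A ht'.le) hs0.le hp1
        rcases lt_trichotomy t t' with h3 | h3 | h3
        · have := phi_strict A ht.le h3; linarith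
        · rw [h3]
        · have := phi_strict A ht'.le h3; linarith
    · rintro rfl
      apply Subtype.ext
      rw [f_uS ht.le, hts, hy]
  rw [this]
  exact isConnected_singleton

lemma fiber_ray_low {A : Set S} (hne : A.Nonempty) {s : ℝ} (hs0 : 0 ≤ s) (hs : s ≤ mm A / 4)
    (y : S) (hy : y.1 = u s) : IsConnected (f A ⁻¹' {y}) := by
  have hm := mm_nonneg A
  have hm1 := mm_le_one hne
  have : f A ⁻¹' {y} = {p : S | p.1.2 = 0 ∧ ‖p.1.1‖ = (mm A - 4 * s) / 2} := by
    ext p
    simp only [mem_preimage, mem_singleton_iff, mem_ofPred_eq]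
    constructor
    · intro hp
      have hp1 : (f A p).1 = u s := by rw [hp, hy]
      rcases cases_S p with h | ⟨t', ht', rfl⟩
      · refine ⟨h, ?_⟩
        rw [f_disk h] at hp1
        rcases le_or_gt ‖p.1.1‖ (mm A / 2) with h1 | h1
        · rw [F_of_le h1] at hp1
          have h2 := u_inj (by linarith) hs0 hp1
          linarith
        · rw [F_of_ge h1.le] at hp1
          exfalso
          have h2 := congrArg Prod.snd hp1
          have h2' : (0:ℝ) = (u s).2 := h2
          rcases hs0.eq_or_lt with h3 | h3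
          · rw [← h3, u_zero] at hp1
            have h4 := congrArg (fun q : ℂ × ℝ => ‖q.1‖) hp1
            simp only [norm_mul, norm_exp_real_I, mul_one, norm_zero] at h4
            rw [norm_radial hm] at h4
            exact absurd h4 (lam_pos hm h1).ne'
          · exact absurd h2' (u_snd_pos h3).ne
      · exfalso
        rw [f_uS ht'.le] at hp1
        have h2 := u_inj (phi_nonneg A ht'.le) hs0 hp1
        have h3 := phi_strict A le_rfl ht'
        rw [phi_zero] at h3
        linarith
    · rintro ⟨h1, h2⟩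
      apply Subtype.ext
      rw [f_disk h1, F_of_le (by rw [h2]; linarith), hy, h2]
      congr 1
      ring
  rw [this]
  exact isConnected_circle (by linarith) (by linarith)

/-- Rotation with varying angle is injective on circles. -/
lemma rot_inj {A : Set S} {p q : S} (hp : p.1.2 = 0) (hq : q.1.2 = 0)
    (h : p.1.1 * exp ((dd A p : ℂ) * I) = q.1.1 * exp ((dd A q : ℂ) * I)) : p = q := by
  have h1 : q.1.1 - p.1.1 = p.1.1 * exp (-((dd A q : ℂ) * I)) *
      (exp ((dd A p : ℂ) * I) - exp ((dd A q : ℂ) * I)) := by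
    have h2 : exp (-((dd A q : ℂ) * I)) * exp ((dd A q : ℂ) * I) = 1 := by
      rw [← Complex.exp_add]; simp
    linear_combination (-(exp (-((dd A q : ℂ) * I)))) * h - (q.1.1) * h2 + p.1.1 * h2
  have h3 : ‖exp (-((dd A q : ℂ) * I))‖ = 1 := by
    have : -((dd A q : ℂ) * I) = ((-(dd A q) : ℝ) : ℂ) * I := by push_cast; ring
    rw [this]; exact norm_exp_real_I _
  have h4 : ‖q.1.1 - p.1.1‖ ≤ |dd A p - dd A q| := by
    rw [h1, norm_mul, norm_mul, h3, mul_one]
    have h5 := norm_exp_sub_le (dd A p) (dd A q)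
    have h6 := norm_fst_le p.2
    nlinarith [norm_nonneg p.1.1, norm_nonneg (exp ((dd A p : ℂ) * I) - exp ((dd A q : ℂ) * I))]
  have h5 := dd_lip (A := A) p q
  have h6 : dist p q = ‖q.1.1 - p.1.1‖ := by
    rw [Subtype.dist_eq, Prod.dist_eq, hp, hq, dist_self, dist_eq_norm, norm_sub_rev]
    exact max_eq_left (norm_nonneg _)
  rw [h6] at h5
  have h7 : ‖q.1.1 - p.1.1‖ = 0 := by
    have := norm_nonneg (q.1.1 - p.1.1)
    linarith
  apply Subtype.ext
  apply Prod.ext
  · exact (sub_eq_zero.mp (norm_eq_zero.mp h7)).symm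
  · rw [hp, hq]

lemma rot_surj {A : Set S} (hne : A.Nonempty) {r : ℝ} (hr0 : 0 ≤ r) (hr1 : r ≤ 1) (ψ : ℝ) :
    ∃ p : S, p.1.2 = 0 ∧ ‖p.1.1‖ = r ∧
      p.1.1 * exp ((dd A p : ℂ) * I) = (r : ℂ) * exp ((ψ : ℂ) * I) := by
  have hmem : ∀ θ : ℝ, (((r : ℂ) * exp ((θ : ℂ) * I), 0) : ℂ × ℝ) ∈ S := by
    intro θ
    apply disk_mem
    rw [norm_mul, norm_exp_real_I, Complex.norm_real, Real.norm_eq_abs, abs_of_nonneg hr0]
    linarith
  let c : ℝ → S := fun θ => ⟨((r : ℂ) * exp ((θ : ℂ) * I), 0), hmem θ⟩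
  have hc : Continuous c := by
    apply Continuous.subtype_mk
    fun_prop
  have hg : Continuous fun θ => θ + dd A (c θ) := continuous_id.add (continuous_dd.comp hc)
  have h1 : (fun θ => θ + dd A (c θ)) (ψ - 1) ≤ ψ := by
    simp only
    linarith [dd_le hne (c (ψ - 1))]
  have h2 : ψ ≤ (fun θ => θ + dd A (c θ)) ψ := by
    simp only
    linarith [dd_nonneg A (c ψ)]
  obtain ⟨θ, hθ, h3⟩ := intermediate_value_Icc (by linarith) hg.continuousOn ⟨h1, h2⟩
  refine ⟨c θ, rfl, ?_, ?_⟩
  · simp [c, abs_of_nonneg hr0]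
  · simp only at h3
    rw [← h3]
    simp only [c]
    rw [mul_assoc, ← Complex.exp_add]
    push_cast
    ring_nf

lemma fiber_disk {A : Set S} (hne : A.Nonempty) (y : S) (hy : y.1.2 = 0) (hy0 : y.1.1 ≠ 0) :
    IsConnected (f A ⁻¹' {y}) := by
  have hm := mm_nonneg A
  have hm1 := mm_le_one hne
  have hw : 0 < ‖y.1.1‖ := norm_pos_iff.mpr hy0
  have hw1 := norm_fst_le y.2
  -- characterization of preimages
  have key : ∀ p : S, f A p = y → p.1.2 = 0 ∧ mm A / 2 < ‖p.1.1‖ ∧
      radial (mm A) p.1.1 * exp ((dd A p : ℂ) * I) = y.1.1 := by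
    intro p hp
    have hp1 : (f A p).1 = y.1 := by rw [hp]
    rcases cases_S p with h | ⟨t', ht', rfl⟩
    · refine ⟨h, ?_⟩
      rw [f_disk h] at hp1
      rcases le_or_gt ‖p.1.1‖ (mm A / 2) with h1 | h1
      · exfalso
        rw [F_of_le h1] at hp1
        have h2 : (0:ℝ) ≤ (mm A - 2 * ‖p.1.1‖) / 4 := by linarith
        rcases h2.eq_or_lt with h3 | h3
        · rw [← h3, u_zero] at hp1
          exact hy0 (congrArg Prod.fst hp1).symm
        · have h4 := congrArg Prod.snd hp1
          rw [hy] at h4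
          exact absurd h4 (u_snd_pos h3).ne'
      · rw [F_of_ge h1.le] at hp1
        exact ⟨h1, congrArg Prod.fst hp1⟩
    · exfalso
      rw [f_uS ht'.le] at hp1
      have h3 := phi_strict A le_rfl ht'
      rw [phi_zero] at h3
      have h4 := congrArg Prod.snd hp1
      rw [hy] at h4
      exact absurd h4 (u_snd_pos (by linarith)).ne'
  constructor
  · -- existence
    set s := ‖y.1.1‖ with hs
    set r := max s ((s + mm A) / 2) with hr
    have hr1 : r ≤ 1 := max_le hw1 (by linarith)
    have hr0 : 0 < r := lt_max_of_lt_left hw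
    have hrm : mm A / 2 < r := lt_max_of_lt_right (by linarith)
    have hlam : lam (mm A) r = s := by
      unfold lam
      rw [max_eq_right (le_min (by linarith) (by linarith))]
      rcases max_cases s ((s + mm A) / 2) with ⟨h1, h2⟩ | ⟨h1, h2⟩
      · rw [hr, h1]; apply min_eq_left; linarith
      · rw [hr, h1, min_eq_right (by linarith)]; ring
    obtain ⟨p, hp0, hpr, hpe⟩ := rot_surj (A := A) hne hr0.le hr1 (arg y.1.1)
    refine ⟨p, ?_⟩
    simp only [mem_preimage, mem_singleton_iff]
    apply Subtype.ext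
    rw [f_disk hp0, F_of_ge (by rw [hpr]; exact hrm.le)]
    apply Prod.ext
    · simp only
      unfold radial
      rw [mul_assoc, hpe, hpr, hlam]
      have h1 : (r : ℂ) ≠ 0 := by exact_mod_cast hr0.ne'
      have h2 := Complex.norm_mul_exp_arg_mul_I y.1.1
      rw [← hs] at h2
      push_cast
      field_simp
      linear_combination h2
    · exact hy.symm
  · -- uniqueness
    apply Set.Subsingleton.isPreconnected
    intro p hp q hq
    obtain ⟨hp0, hp1, hp2⟩ := key p hp
    obtain ⟨hq0, hq1, hq2⟩ := key q hq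
    have h1 : lam (mm A) ‖p.1.1‖ = lam (mm A) ‖q.1.1‖ := by
      have h2 := congrArg norm (hp2.trans hq2.symm)
      rw [norm_mul, norm_mul, norm_exp_real_I, norm_exp_real_I, mul_one, mul_one,
        norm_radial hm, norm_radial hm] at h2
      exact h2
    have h2 := lam_inj hm hp1 hq1 h1
    apply rot_inj (A := A) hp0 hq0
    have h3 := hp2.trans hq2.symm
    unfold radial at h3
    rw [← h2] at h3
    have h4 : ((lam (mm A) ‖p.1.1‖ / ‖p.1.1‖ : ℝ) : ℂ) ≠ 0 := by
      have h5 := lam_pos hm hp1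
      have h6 : 0 < ‖p.1.1‖ := by linarith
      exact_mod_cast (div_pos h5 h6).ne'
    rw [mul_assoc, mul_assoc] at h3
    exact mul_left_cancel₀ h4 h3

theorem fiber_connected {A : Set S} (hne : A.Nonempty) (y : S) : IsConnected (f A ⁻¹' {y}) := by
  have hm := mm_nonneg A
  rcases mem_S_cases y.2 with h | ⟨t, ht, h⟩
  · by_cases h0 : y.1.1 = 0
    · apply fiber_ray_low hne (s := 0) le_rfl (by linarith)
      rw [u_zero]
      exact Prod.ext h0 h.2
    · exact fiber_disk hne y h.2 h0
  · rcases le_or_gt t (mm A / 4) with h1 | h1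
    · exact fiber_ray_low hne ht.le h1 y h
    · exact fiber_ray_high h1 y h

theorem surjective_f {A : Set S} (hne : A.Nonempty) : Function.Surjective (f A) := by
  intro y
  obtain ⟨x, hx⟩ := (fiber_connected hne y).nonempty
  exact ⟨x, hx⟩

theorem fixed_iff {A : Set S} (hA : IsClosed A) (hne : A.Nonempty) (x : S) : f A x = x ↔ x ∈ A := by
  have hm := mm_nonneg A
  have hexp : ∀ p : S, exp ((dd A p : ℂ) * I) = 1 → p ∈ A := by
    intro p hp
    rw [← dd_eq_zero hA hne p]
    rw [Complex.exp_eq_one_iff] at hp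
    obtain ⟨n, hn⟩ := hp
    have h1 : (dd A p : ℂ) = n * (2 * Real.pi) := by
      have hI : (I : ℂ) ≠ 0 := Complex.I_ne_zero
      apply mul_right_cancel₀ hI
      rw [hn]; ring
    have h2 : dd A p = n * (2 * Real.pi) := by exact_mod_cast h1
    have h3 := dd_nonneg A p
    have h4 := dd_le hne p
    have h5 := Real.pi_gt_three
    have h6 : n = 0 := by
      by_contra h
      rcases lt_or_gt_of_ne h with h7 | h7
      · have : (n : ℝ) ≤ -1 := by exact_mod_cast (show n ≤ -1 by omega)
        nlinarith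
      · have : (1:ℝ) ≤ n := by exact_mod_cast h7
        nlinarith
    rw [h2, h6]; simp
  rcases cases_S x with h | ⟨t, ht, rfl⟩
  · constructor
    · intro hx
      have hx1 : (f A x).1 = x.1 := by rw [hx]
      rw [f_disk h] at hx1
      rcases le_or_gt ‖x.1.1‖ (mm A / 2) with h1 | h1
      · rw [F_of_le h1] at hx1
        have h2 : (0:ℝ) ≤ (mm A - 2 * ‖x.1.1‖) / 4 := by linarith
        rcases h2.eq_or_lt with h3 | h3
        · rw [← h3, u_zero] at hx1
          have hx2 : x.1.1 = 0 := (congrArg Prod.fst hx1).symm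
          have hx3 : x = o := Subtype.ext hx1.symm
          rw [hx2, norm_zero] at h3
          rw [hx3, ← dd_eq_zero hA hne, dd_o]
          linarith
        · have h4 := congrArg Prod.snd hx1
          rw [h] at h4
          exact absurd h4 (u_snd_pos h3).ne'
      · rw [F_of_ge h1.le] at hx1
        have h2 := congrArg Prod.fst hx1
        simp only at h2
        have h3 := congrArg norm h2
        rw [norm_mul, norm_exp_real_I, mul_one, norm_radial hm] at h3
        have h4 : radial (mm A) x.1.1 = x.1.1 := by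
          unfold radial
          rw [h3]
          have : ‖x.1.1‖ ≠ 0 := by
            have : 0 < ‖x.1.1‖ := by linarith
            exact this.ne'
          rw [div_self this]; simp
        rw [h4] at h2
        have h5 : x.1.1 ≠ 0 := by
          intro h6; rw [h6, norm_zero] at h1; linarith
        apply hexp
        exact mul_left_cancel₀ h5 (by rw [h2, mul_one])
    · intro hx
      apply Subtype.ext
      have h1 := mm_le_norm hx h
      have h2 : dd A x = 0 := (dd_eq_zero hA hne x).mpr hx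
      rw [f_disk h, F_of_ge (by linarith), radial_of_ge hm h1, h2]
      apply Prod.ext
      · simp
      · exact h.symm
  · constructor
    · intro hx
      have hx1 : (f A (uS t)).1 = (uS t).1 := by rw [hx]
      rw [f_uS ht.le, uS_val ht.le] at hx1
      have h1 := u_inj (phi_nonneg A ht.le) ht.le hx1
      rw [← dd_eq_zero hA hne]
      unfold phi at h1
      linarith
    · intro hx
      apply Subtype.ext
      rw [f_uS ht.le, uS_val ht.le, phi, (dd_eq_zero hA hne _).mpr hx, add_zero]

end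

end Pool.Agent.H71.SpiralDisk
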