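import Mathlib
import Pool.Agent.H71.SpiralDiskMap

set_option autoImplicit false

namespace Pool.Agent.H71.SpiralDisk

open Complex Set Metric

noncomputable section

/-- A continuous real function on the circle is not injective. -/
lemma not_injective_circle_real (l : Circle → ℝ) (hl : Continuous l) : ¬ Function.Injective l := by
  intro hinj
  let g : ℝ → ℝ := fun θ => l (Circle.exp θ) - l (Circle.exp (θ + Real.pi))
  have hg : Continuous g := by
    apply Continuous.sub
    · exact hl.comp Circle.exp.continuous
    · exact hl.comp (Circle.exp.continuous.comp (by fun_prop))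
  have h0 : g Real.pi = - g 0 := by
    simp only [g, zero_add]
    have : Circle.exp (Real.pi + Real.pi) = Circle.exp 0 := by
      rw [← two_mul]
      simp [Circle.exp_two_pi]
    rw [this]
    ring
  have hzero : ∃ θ, g θ = 0 := by
    rcases le_total (g 0) 0 with h | h
    · obtain ⟨θ, _, hθ⟩ := intermediate_value_Icc Real.pi_pos.le hg.continuousOn
        (show (0:ℝ) ∈ Icc (g 0) (g Real.pi) from ⟨h, by rw [h0]; linarith⟩)
      exact ⟨θ, hθ⟩
    · obtain ⟨θ, _, hθ⟩ := intermediate_value_Icc' Real.pi_pos.le hg.continuousOn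
        (show (0:ℝ) ∈ Icc (g Real.pi) (g 0) from ⟨by rw [h0]; linarith, h⟩)
      exact ⟨θ, hθ⟩
  obtain ⟨θ, hθ⟩ := hzero
  have h1 : Circle.exp θ = Circle.exp (θ + Real.pi) := hinj (sub_eq_zero.mp hθ)
  have h2 : (Circle.exp θ : ℂ) = (Circle.exp (θ + Real.pi) : ℂ) := by rw [h1]
  rw [Circle.coe_exp, Circle.coe_exp] at h2
  have h3 : exp (((θ + Real.pi : ℝ) : ℂ) * I) = - exp ((θ : ℂ) * I) := by
    push_cast
    rw [add_mul, Complex.exp_add, Complex.exp_pi_mul_I]
    ring
  rw [h3] at h2
  have h4 : exp ((θ : ℂ) * I) = 0 := by linear_combination h2 / 2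
  exact Complex.exp_ne_zero _ h4

theorem not_homeo_circle : ¬ Nonempty (S ≃ₜ Circle) := by
  rintro ⟨g⟩
  have hcoe : Continuous (fun z : Circle => (z : ℂ)) := continuous_subtype_val
  let c : Circle → S := fun z => ⟨((z : ℂ), 0), disk_mem (Circle.norm_coe z).le⟩
  have hc : Continuous c := by
    apply Continuous.subtype_mk
    exact hcoe.prodMk continuous_const
  have hcinj : Function.Injective c := by
    intro z w h
    exact Circle.ext (congrArg (fun p : S => p.1.1) h)
  have hco : ∀ z, c z ≠ o := by
    intro z h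
    have h1 : (z : ℂ) = 0 := congrArg (fun p : S => p.1.1) h
    exact Circle.coe_ne_zero z h1
  let w : Circle → ℂ := fun z => -((g (c z) * (g o)⁻¹ : Circle) : ℂ)
  have hw : Continuous w := by
    apply Continuous.neg
    exact hcoe.comp ((g.continuous.comp hc).mul continuous_const)
  have hwn : ∀ z, ‖w z‖ = 1 := by
    intro z
    simp only [w, norm_neg]
    exact Circle.norm_coe _
  have hwne : ∀ z, w z ≠ -1 := by
    intro z h
    have h1 : ((g (c z) * (g o)⁻¹ : Circle) : ℂ) = 1 := by
      have := neg_injective h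
      exact this
    have h2 : g (c z) * (g o)⁻¹ = 1 := Circle.ext (by rw [h1]; simp)
    have h3 : g (c z) = g o := mul_inv_eq_one.mp h2
    exact hco z (g.injective h3)
  have hslit : ∀ z, w z ∈ slitPlane := by
    intro z
    rw [Complex.mem_slitPlane_iff]
    by_contra hcon
    push Not at hcon
    obtain ⟨h1, h2⟩ := hcon
    have h3 := hwn z
    have h4 : Complex.normSq (w z) = 1 := by
      rw [Complex.normSq_eq_norm_sq, h3]; norm_num
    rw [Complex.normSq_apply, h2, mul_zero, add_zero] at h4
    have h5 : (w z).re = -1 := by nlinarith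
    exact hwne z (Complex.ext (by simpa using h5) (by simpa using h2))
  apply not_injective_circle_real (fun z => arg (w z))
  · rw [continuous_iff_continuousAt]
    intro z
    exact (Complex.continuousAt_arg (hslit z)).comp hw.continuousAt
  · intro z z' h
    have h1 : w z = w z' := Complex.ext_norm_arg (by rw [hwn, hwn]) h
    have h2 : ((g (c z) * (g o)⁻¹ : Circle) : ℂ) = ((g (c z') * (g o)⁻¹ : Circle) : ℂ) :=
      neg_injective h1
    have h3 : g (c z) * (g o)⁻¹ = g (c z') * (g o)⁻¹ := Circle.ext h2
    exact hcinj (g.injective (mul_right_cancel h3))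

end

end Pool.Agent.H71.SpiralDisk
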